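import Pool.Agent.W279.TriS.Defs

/-!
# A p-adic sequence with almost constant differences at all scales fills a ball
(helper493, subtask SA-SEQ)
-/

set_option autoImplicit false

namespace Pool.Agent.W493.SA.Seq

open Pool.Agent.W279.TriS

variable {p : ℕ} [hp : Fact p.Prime]

lemma nb {x y : ℚ_[p]} {C : ℝ} (hx : ‖x‖ ≤ C) (hy : ‖y‖ ≤ C) : ‖x + y‖ ≤ C :=
  (Padic.nonarchimedean x y).trans (max_le hx hy)

lemma nbs {x y : ℚ_[p]} {C : ℝ} (hx : ‖x‖ ≤ C) (hy : ‖y‖ ≤ C) : ‖x - y‖ ≤ C := by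
  rw [sub_eq_add_neg]
  exact nb hx (by rwa [norm_neg])

/-- (a) -/
lemma lin (T : ℕ → ℚ_[p]) (w : ℕ) (C : ℝ) (hC : 0 ≤ C)
    (h : ∀ i, ‖T (i + 2 * w) - 2 * T (i + w) + T i‖ ≤ C) (i j : ℕ) :
    ‖T (i + j * w) - T i - j * (T (i + w) - T i)‖ ≤ C := by
  have hB : ∀ j : ℕ, ‖(T (i + (j + 1) * w) - T (i + j * w)) - (T (i + w) - T i)‖ ≤ C := by
    intro j
    induction j with
    | zero => simpa using hC
    | succ j ih =>
      have e1 := h (i + j * w)
      have e2 : T (i + (j + 1 + 1) * w) - T (i + (j + 1) * w) - (T (i + w) - T i) =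
          (T (i + j * w + 2 * w) - 2 * T (i + j * w + w) + T (i + j * w)) +
          ((T (i + (j + 1) * w) - T (i + j * w)) - (T (i + w) - T i)) := by
        have a1 : i + (j + 1 + 1) * w = i + j * w + 2 * w := by ring
        have a2 : i + (j + 1) * w = i + j * w + w := by ring
        rw [a1, a2]
        ring
      rw [e2]
      exact nb e1 ih
  induction j with
  | zero => simpa using hC
  | succ j ih =>
    have e2 : T (i + (j + 1) * w) - T i - ((j + 1 : ℕ) : ℚ_[p]) * (T (i + w) - T i) =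
        ((T (i + (j + 1) * w) - T (i + j * w)) - (T (i + w) - T i)) +
        (T (i + j * w) - T i - j * (T (i + w) - T i)) := by
      push_cast
      ring
    rw [e2]
    exact nb (hB j) ih

lemma exists_digit (z : ℚ_[p]) (hz : ‖z‖ ≤ 1) : ∃ j : ℕ, ‖z - j‖ ≤ (p : ℝ)⁻¹ := by
  obtain ⟨y, hy⟩ : ∃ y : ℤ_[p], (y : ℚ_[p]) = z := ⟨⟨z, hz⟩, rfl⟩
  obtain ⟨n, -, hn⟩ := PadicInt.exists_mem_range (p := p) y
  refine ⟨n, ?_⟩
  rw [PadicInt.maximalIdeal_eq_span_p, Ideal.mem_span_singleton] at hn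
  obtain ⟨c, hc⟩ := hn
  have h1 : z - n = (p : ℚ_[p]) * c := by
    have h2 : ((y - (n : ℤ_[p]) : ℤ_[p]) : ℚ_[p]) = z - n := by
      rw [PadicInt.coe_sub, PadicInt.coe_natCast, hy]
    rw [← h2, hc, PadicInt.coe_mul, PadicInt.coe_natCast]
  rw [h1, norm_mul, Padic.norm_p]
  have : ‖(c : ℚ_[p])‖ ≤ 1 := c.2
  have hp0 : (0 : ℝ) < (p : ℝ)⁻¹ := inv_pos.2 (by exact_mod_cast hp.out.pos)
  nlinarith

theorem main : StmtSeq := by
  intro p hp T κ hκ H hsm τ hτ ε hε
  set r : ℕ → ℝ := fun w => ‖T w - T 0‖ with hr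
  have hpp : (0 : ℝ) < p := by exact_mod_cast hp.out.pos
  have hp1 : (1 : ℝ) ≤ p := by exact_mod_cast hp.out.one_le
  have H1 : ∀ w, w ≠ 0 → 0 < r w := by
    intro w hw
    obtain ⟨ρ, h0, h1⟩ := H w hw
    have := (h1 0).1
    simp only [zero_add] at this
    rw [hr]
    simp only
    rw [this]
    exact h0
  have H2 : ∀ w, w ≠ 0 → ∀ i, ‖T (i + w) - T i‖ = r w := by
    intro w hw i
    obtain ⟨ρ, h0, h1⟩ := H w hw
    have := (h1 0).1
    simp only [zero_add] at this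
    rw [(h1 i).1, hr]
    simp only
    rw [this]
  have H3 : ∀ w, w ≠ 0 → ∀ i, ‖T (i + 2 * w) - 2 * T (i + w) + T i‖ ≤ κ * r w ^ 2 := by
    intro w hw i
    obtain ⟨ρ, h0, h1⟩ := H w hw
    have := (h1 0).1
    simp only [zero_add] at this
    rw [hr]
    simp only
    rw [this]
    exact (h1 i).2
  have H4 : ∀ w, w ≠ 0 → ∀ i j : ℕ,
      ‖T (i + j * w) - T i - j * (T (i + w) - T i)‖ ≤ κ * r w ^ 2 := fun w hw i j =>
    lin T w _ (mul_nonneg hκ (sq_nonneg _)) (H3 w hw) i j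
  have hpn : ∀ n : ℕ, p ^ n ≠ 0 := fun n => pow_ne_zero _ hp.out.ne_zero
  have hr1 : κ * r 1 * p < 1 := hsm
  have hr10 : 0 < r 1 := H1 1 one_ne_zero
  -- scales
  have Hb : ∀ n : ℕ, r (p ^ n) = r 1 / p ^ n := by
    intro n
    induction n with
    | zero => simp
    | succ n ih =>
      have h0 : 0 < r (p ^ n) := H1 _ (hpn n)
      have hle : r (p ^ n) ≤ r 1 := by
        rw [ih]
        exact div_le_self hr10.le (one_le_pow₀ hp1)
      have h4 := H4 (p ^ n) (hpn n) 0 p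
      simp only [zero_add] at h4
      have h5 : κ * r (p ^ n) ^ 2 < r (p ^ n) / p := by
        rw [lt_div_iff₀ hpp]
        have : κ * r (p ^ n) * p < 1 := by
          refine lt_of_le_of_lt ?_ hr1
          gcongr
        nlinarith
      have h6 : ‖(p : ℚ_[p]) * (T (p ^ n) - T 0)‖ = r (p ^ n) / p := by
        rw [norm_mul, Padic.norm_p, hr]
        simp only
        rw [div_eq_inv_mul]
      have h7 : ‖T (p * p ^ n) - T 0‖ = r (p ^ n) / p := by
        have e : T (p * p ^ n) - T 0 = (T (p * p ^ n) - T 0 - (p : ℚ_[p]) * (T (p ^ n) - T 0)) +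
            (p : ℚ_[p]) * (T (p ^ n) - T 0) := by ring
        have hlt : ‖T (p * p ^ n) - T 0 - (p : ℚ_[p]) * (T (p ^ n) - T 0)‖ <
            ‖(p : ℚ_[p]) * (T (p ^ n) - T 0)‖ := by
          rw [h6]
          exact lt_of_le_of_lt h4 h5
        rw [e, Padic.add_eq_max_of_ne hlt.ne, max_eq_right hlt.le, h6]
      have h8 : r (p ^ (n + 1)) = ‖T (p * p ^ n) - T 0‖ := by
        rw [hr]
        simp only
        rw [pow_succ, mul_comm]
      rw [h8, h7, ih, pow_succ, div_div]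
  have Hs : ∀ n : ℕ, κ * r (p ^ n) * p < 1 := by
    intro n
    refine lt_of_le_of_lt ?_ hr1
    have hle : r (p ^ n) ≤ r 1 := by
      rw [Hb]
      exact div_le_self hr10.le (one_le_pow₀ hp1)
    gcongr
  have Hs' : ∀ n : ℕ, κ * r (p ^ n) ^ 2 ≤ r (p ^ n) / p := by
    intro n
    rw [le_div_iff₀ hpp]
    have := Hs n
    have h0 : 0 < r (p ^ n) := H1 _ (hpn n)
    nlinarith
  -- multiples of a scale
  have Hm : ∀ n i m : ℕ, ‖T (i + m * p ^ n) - T i‖ ≤ r (p ^ n) := by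
    intro n i m
    have h0 : 0 < r (p ^ n) := H1 _ (hpn n)
    have h4 := H4 (p ^ n) (hpn n) i m
    have e : T (i + m * p ^ n) - T i = (T (i + m * p ^ n) - T i -
        m * (T (i + p ^ n) - T i)) + m * (T (i + p ^ n) - T i) := by ring
    rw [e]
    refine nb ?_ ?_
    · refine h4.trans ((Hs' n).trans (div_le_self h0.le hp1))
    · rw [norm_mul, H2 _ (hpn n)]
      have : ‖(m : ℚ_[p])‖ ≤ 1 := by simpa using Padic.norm_int_le_one (p := p) (m : ℤ)
      nlinarith
  have Hc : ∀ n k c : ℕ, k ≡ c [MOD p ^ n] → ‖T k - T c‖ ≤ r (p ^ n) := by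
    intro n k c hk
    rcases le_total c k with h | h
    · obtain ⟨m, hm⟩ := (Nat.modEq_iff_dvd' h).1 hk.symm
      have : k = c + m * p ^ n := by
        rw [mul_comm m]
        omega
      rw [this]
      exact Hm n c m
    · obtain ⟨m, hm⟩ := (Nat.modEq_iff_dvd' h).1 hk
      have : c = k + m * p ^ n := by
        rw [mul_comm m]
        omega
      rw [this, norm_sub_rev]
      exact Hm n k m
  have key : ∀ n : ℕ, ∃ c : ℕ, ∀ k, k ≡ c [MOD p ^ n] → ‖T k - τ‖ ≤ r (p ^ n) := by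
    intro n
    induction n with
    | zero =>
      refine ⟨0, fun k hk => ?_⟩
      have e : T k - τ = (T k - T 0) - (τ - T 0) := by ring
      rw [e]
      refine nbs (Hc 0 k 0 hk) ?_
      simpa [hr] using hτ
    | succ n ih =>
      obtain ⟨c, hc⟩ := ih
      have h0 : 0 < r (p ^ n) := H1 _ (hpn n)
      set a : ℚ_[p] := T (c + p ^ n) - T c with ha
      have hna : ‖a‖ = r (p ^ n) := H2 _ (hpn n) c
      have ha0 : a ≠ 0 := by
        intro h
        rw [h, norm_zero] at hna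
        linarith
      have hz : ‖(τ - T c) / a‖ ≤ 1 := by
        rw [norm_div, hna, div_le_one h0, norm_sub_rev]
        exact hc c rfl
      obtain ⟨j, hj⟩ := exists_digit _ hz
      have hrn : r (p ^ (n + 1)) = r (p ^ n) / p := by
        rw [Hb, Hb, pow_succ, div_div]
      refine ⟨c + j * p ^ n, fun k hk => ?_⟩
      have e : T k - τ = (T k - T (c + j * p ^ n)) +
          ((T (c + j * p ^ n) - T c - j * a) - ((τ - T c) / a - j) * a) := by
        field_simp
        ring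
      rw [e]
      refine nb (Hc _ _ _ hk) (nbs ?_ ?_)
      · rw [hrn]
        exact (H4 (p ^ n) (hpn n) c j).trans (Hs' n)
      · rw [norm_mul, hna, hrn, div_eq_inv_mul (r (p ^ n))]
        exact mul_le_mul_of_nonneg_right hj h0.le
  -- choose the scale
  have htend : Filter.Tendsto (fun n : ℕ => r 1 / (p : ℝ) ^ n) Filter.atTop (nhds 0) := by
    have h1 : Filter.Tendsto (fun n : ℕ => (p : ℝ) ^ n) Filter.atTop Filter.atTop :=
      tendsto_pow_atTop_atTop_of_one_lt (by exact_mod_cast hp.out.one_lt)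
    exact h1.const_div_atTop _
  obtain ⟨n, hn⟩ := (htend.eventually (gt_mem_nhds hε)).exists
  obtain ⟨c, hc⟩ := key n
  refine ⟨n, c, fun k hk => (hc k hk).trans ?_⟩
  rw [Hb]
  exact hn.le

end Pool.Agent.W493.SA.Seq
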