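import Pool.Agent.W279.TriS.Defs

/-!
# Existence and continuity of chains of other roots (helper493, subtask SA-CHAIN)
-/

set_option autoImplicit false

namespace Pool.Agent.W493.SA.Chain

open Pool.Agent.W279.TriS Pool.Agent.W279.Tri Filter Topology

variable {L : Type} [NontriviallyNormedField L]

lemma pr_inj {u x y : Fin 2 → L} (hu : u ≠ 0) (h : ∀ j, pr u x j = pr u y j) : x = y := by
  have h0 : u 1 * x 1 = u 1 * y 1 := by simpa [pr] using h 0
  have h1 : -(u 1 * x 0 + u 0 * x 1) = -(u 1 * y 0 + u 0 * y 1) := by simpa [pr] using h 1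
  have h2 : u 0 * x 0 = u 0 * y 0 := by simpa [pr] using h 2
  by_cases hu1 : u 1 = 0
  · have hu0 : u 0 ≠ 0 := by
      intro hu0
      apply hu
      funext i
      fin_cases i
      · exact hu0
      · exact hu1
    have e0 : x 0 = y 0 := mul_left_cancel₀ hu0 h2
    have e1 : x 1 = y 1 := by
      apply mul_left_cancel₀ hu0
      rw [hu1] at h1
      linear_combination -h1
    funext i
    fin_cases i
    · exact e0
    · exact e1
  · have e1 : x 1 = y 1 := mul_left_cancel₀ hu1 h0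
    have e0 : x 0 = y 0 := by
      apply mul_left_cancel₀ hu1
      rw [e1] at h1
      linear_combination -h1
    funext i
    fin_cases i
    · exact e0
    · exact e1

/-- the other root in the chart `a 1 ≠ 0` -/
def F1 (q : (Fin 3 → Fin 3 → L) × (Fin 2 → L) × (Fin 2 → L)) : Fin 2 → L :=
  ![-(lf q.1 q.2.2 1 * q.2.1 1 + lf q.1 q.2.2 0 * q.2.1 0) / q.2.1 1 ^ 2,
    lf q.1 q.2.2 0 / q.2.1 1]

/-- the other root in the chart `a 0 ≠ 0` -/
def F0 (q : (Fin 3 → Fin 3 → L) × (Fin 2 → L) × (Fin 2 → L)) : Fin 2 → L :=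
  ![lf q.1 q.2.2 2 / q.2.1 0,
    -(lf q.1 q.2.2 1 * q.2.1 0 + lf q.1 q.2.2 2 * q.2.1 1) / q.2.1 0 ^ 2]

lemma F1_spec (q : (Fin 3 → Fin 3 → L) × (Fin 2 → L) × (Fin 2 → L)) (h1 : q.2.1 1 ≠ 0)
    (hG : G q.1 q.2.1 q.2.2 = 0) (j : Fin 3) : lf q.1 q.2.2 j = pr q.2.1 (F1 q) j := by
  rw [G_eq_lf] at hG
  unfold qf at hG
  fin_cases j
  · simp [pr, F1]
    field_simp
  · simp [pr, F1]
    field_simp
    ring
  · simp [pr, F1]
    field_simp
    linear_combination hG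

lemma F0_spec (q : (Fin 3 → Fin 3 → L) × (Fin 2 → L) × (Fin 2 → L)) (h1 : q.2.1 0 ≠ 0)
    (hG : G q.1 q.2.1 q.2.2 = 0) (j : Fin 3) : lf q.1 q.2.2 j = pr q.2.1 (F0 q) j := by
  rw [G_eq_lf] at hG
  unfold qf at hG
  fin_cases j
  · simp [pr, F0]
    field_simp
    linear_combination hG
  · simp [pr, F0]
    field_simp
    ring
  · simp [pr, F0]
    field_simp

lemma continuous_lf (j : Fin 3) : Continuous
    fun q : (Fin 3 → Fin 3 → L) × (Fin 2 → L) × (Fin 2 → L) => lf q.1 q.2.2 j := by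
  unfold lf
  refine continuous_finsetSum _ fun k _ => ?_
  refine Continuous.mul ?_ ((continuous_mon k).comp (continuous_snd.comp continuous_snd))
  exact (continuous_apply k).comp ((continuous_apply j).comp continuous_fst)

lemma continuous_a (i : Fin 2) : Continuous
    fun q : (Fin 3 → Fin 3 → L) × (Fin 2 → L) × (Fin 2 → L) => q.2.1 i :=
  (continuous_apply i).comp (continuous_fst.comp continuous_snd)

lemma F1_cont (q : (Fin 3 → Fin 3 → L) × (Fin 2 → L) × (Fin 2 → L)) (h1 : q.2.1 1 ≠ 0) :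
    ContinuousAt F1 q := by
  rw [continuousAt_pi]
  intro i
  fin_cases i
  · refine ContinuousAt.div ?_ ?_ (pow_ne_zero _ h1)
    · exact ((((continuous_lf 1).mul (continuous_a 1)).add
        ((continuous_lf 0).mul (continuous_a 0))).neg).continuousAt
    · exact ((continuous_a 1).pow 2).continuousAt
  · exact ContinuousAt.div (continuous_lf 0).continuousAt (continuous_a 1).continuousAt h1

lemma F0_cont (q : (Fin 3 → Fin 3 → L) × (Fin 2 → L) × (Fin 2 → L)) (h1 : q.2.1 0 ≠ 0) :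
    ContinuousAt F0 q := by
  rw [continuousAt_pi]
  intro i
  fin_cases i
  · exact ContinuousAt.div (continuous_lf 2).continuousAt (continuous_a 0).continuousAt h1
  · refine ContinuousAt.div ?_ ?_ (pow_ne_zero _ h1)
    · exact ((((continuous_lf 1).mul (continuous_a 0)).add
        ((continuous_lf 2).mul (continuous_a 1))).neg).continuousAt
    · exact ((continuous_a 0).pow 2).continuousAt

/-- half of a step -/
def Half (W : Set (Fin 2 → L)) (q : (Fin 3 → Fin 3 → L) × (Fin 2 → L) × (Fin 2 → L)) : Prop :=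
  G q.1 q.2.1 q.2.2 = 0 → ∃ x : Fin 2 → L, x ≠ 0 ∧ x ∈ W ∧
    (∀ j, lf q.1 q.2.2 j = pr q.2.1 x j) ∧
    ∀ y : Fin 2 → L, (∀ j, lf q.1 q.2.2 j = pr q.2.1 y j) → y = x

lemma half_aux {g : Fin 3 → Fin 3 → L} {a b a' : Fin 2 → L} (ha' : a' ≠ 0)
    (F : (Fin 3 → Fin 3 → L) × (Fin 2 → L) × (Fin 2 → L) → Fin 2 → L) (i : Fin 2)
    (hi : a i ≠ 0) (hF : ContinuousAt F (g, a, b)) (hFa : F (g, a, b) = a')
    (hs : ∀ q : (Fin 3 → Fin 3 → L) × (Fin 2 → L) × (Fin 2 → L), q.2.1 i ≠ 0 →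
      G q.1 q.2.1 q.2.2 = 0 → ∀ j, lf q.1 q.2.2 j = pr q.2.1 (F q) j)
    {W : Set (Fin 2 → L)} (hW : W ∈ 𝓝 a') : ∀ᶠ q in 𝓝 (g, a, b), Half W q := by
  have e1 : ∀ᶠ q : (Fin 3 → Fin 3 → L) × (Fin 2 → L) × (Fin 2 → L) in 𝓝 (g, a, b),
      q.2.1 i ≠ 0 := (continuous_a i).continuousAt.eventually_ne hi
  have e2 : ∀ᶠ q in 𝓝 (g, a, b), F q ∈ W := by
    rw [← hFa] at hW
    exact hF hW
  have e3 : ∀ᶠ q in 𝓝 (g, a, b), F q ≠ 0 := hF.eventually_ne (by rw [hFa]; exact ha')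
  filter_upwards [e1, e2, e3] with q h1 h2 h3 hG
  refine ⟨F q, h3, h2, hs q h1 hG, fun y hy => ?_⟩
  apply pr_inj (u := q.2.1)
  · intro h0
    apply h1
    rw [h0]
    rfl
  · intro j
    rw [← hy j, hs q h1 hG j]

lemma half {g : Fin 3 → Fin 3 → L} {a b a' : Fin 2 → L} (ha : a ≠ 0) (ha' : a' ≠ 0)
    (h : ∀ j, lf g b j = pr a a' j) {W : Set (Fin 2 → L)} (hW : W ∈ 𝓝 a') :
    ∀ᶠ q in 𝓝 (g, a, b), Half W q := by
  have hG : G g a b = 0 := by rw [G_of_pr h, br_self, zero_mul]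
  by_cases h1 : a 1 = 0
  · have h0 : a 0 ≠ 0 := by
      intro h0
      apply ha
      funext i
      fin_cases i
      · exact h0
      · exact h1
    refine half_aux ha' F0 0 h0 (F0_cont _ h0) ?_ (fun q h1 hG => F0_spec q h1 hG) hW
    apply pr_inj ha
    intro j
    rw [← h j]
    exact (F0_spec (g, a, b) h0 hG j).symm
  · refine half_aux ha' F1 1 h1 (F1_cont _ h1) ?_ (fun q h1 hG => F1_spec q h1 hG) hW
    apply pr_inj ha
    intro j
    rw [← h j]
    exact (F1_spec (g, a, b) h1 hG j).symm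

/-- the transposed form -/
def tr (g : Fin 3 → Fin 3 → L) : Fin 3 → Fin 3 → L := fun j k => g k j

lemma continuous_tr : Continuous (tr (L := L)) := by
  unfold tr
  refine continuous_pi fun j => continuous_pi fun k => ?_
  exact (continuous_apply j).comp (continuous_apply k)

lemma one {g : Fin 3 → Fin 3 → L} {a b a' b' : Fin 2 → L} (ha : a ≠ 0) (hb : b ≠ 0)
    (ha' : a' ≠ 0) (hb' : b' ≠ 0) (h : Step g a b a' b')
    {W : Set ((Fin 2 → L) × (Fin 2 → L))} (hW : W ∈ 𝓝 (a', b')) :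
    ∀ᶠ q in 𝓝 (g, a, b), G q.1 q.2.1 q.2.2 = 0 →
      (∃ x y : Fin 2 → L, x ≠ 0 ∧ y ≠ 0 ∧ Step q.1 q.2.1 q.2.2 x y) ∧
      ∀ x y : Fin 2 → L, Step q.1 q.2.1 q.2.2 x y → (x, y) ∈ W := by
  obtain ⟨Wa, hWa, Wb, hWb, hab⟩ := mem_nhds_prod_iff.1 hW
  have k2 : ∀ᶠ q in 𝓝 (tr g, b, a'), Half Wb q := half hb hb' h.2 hWb
  have k3 : ∀ᶠ q : ((Fin 3 → Fin 3 → L) × (Fin 2 → L)) × (Fin 2 → L) in 𝓝 ((g, b), a'),
      Half Wb (tr q.1.1, q.1.2, q.2) := by
    have hc : ContinuousAt (fun q : ((Fin 3 → Fin 3 → L) × (Fin 2 → L)) × (Fin 2 → L) =>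
        (tr q.1.1, q.1.2, q.2)) ((g, b), a') := by
      refine Continuous.continuousAt ?_
      exact (continuous_tr.comp (continuous_fst.comp continuous_fst)).prodMk
        ((continuous_snd.comp continuous_fst).prodMk continuous_snd)
    exact hc.eventually k2
  obtain ⟨Wg, hWg, V, hV, hgV⟩ := mem_nhds_prod_iff.1 k3
  have k1 : ∀ᶠ q in 𝓝 (g, a, b), Half (Wa ∩ V) q := half ha ha' h.1 (inter_mem hWa hV)
  have k4 : ∀ᶠ q : (Fin 3 → Fin 3 → L) × (Fin 2 → L) × (Fin 2 → L) in 𝓝 (g, a, b),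
      (q.1, q.2.2) ∈ Wg := by
    have hc : ContinuousAt (fun q : (Fin 3 → Fin 3 → L) × (Fin 2 → L) × (Fin 2 → L) =>
        (q.1, q.2.2)) (g, a, b) := by
      refine Continuous.continuousAt ?_
      exact continuous_fst.prodMk (continuous_snd.comp continuous_snd)
    exact hc hWg
  filter_upwards [k1, k4] with q h1 h4 hG
  obtain ⟨x, hx0, hx, hx1, hx2⟩ := h1 hG
  have h5 : Half Wb (tr q.1, q.2.2, x) :=
    hgV (show ((q.1, q.2.2), x) ∈ Wg ×ˢ V from ⟨h4, hx.2⟩)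
  have hGx : G (tr q.1) q.2.2 x = 0 := by
    have := G_of_pr hx1 x
    rw [br_self, mul_zero, G_swap] at this
    exact this
  obtain ⟨y, hy0, hy, hy1, hy2⟩ := h5 hGx
  refine ⟨⟨x, y, hx0, hy0, hx1, hy1⟩, ?_⟩
  intro x' y' hxy
  have e1 : x' = x := hx2 x' hxy.1
  subst e1
  have e2 : y' = y := hy2 y' hxy.2
  subst e2
  exact hab ⟨hx.1, hy⟩

lemma Step.G0 {g : Fin 3 → Fin 3 → L} {a b a' b' : Fin 2 → L} (h : Step g a b a' b') :
    G g a' b' = 0 := by
  rw [G_swap, G_of_pr h.2, br_self, mul_zero]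

theorem main_aux (g : Fin 3 → Fin 3 → L) (u v : ℕ → Fin 2 → L) (hu : ∀ i, u i ≠ 0)
    (hv : ∀ i, v i ≠ 0) (n : ℕ) (hst : ∀ i < n, Step g (u i) (v i) (u (i + 1)) (v (i + 1))) :
    ∀ W ∈ 𝓝 (u n, v n), ∀ᶠ q in 𝓝 (g, u 0, v 0), G q.1 q.2.1 q.2.2 = 0 →
      (∃ u' v' : ℕ → Fin 2 → L, u' 0 = q.2.1 ∧ v' 0 = q.2.2 ∧ (∀ i, u' i ≠ 0) ∧
        (∀ i, v' i ≠ 0) ∧ (∀ i < n, Step q.1 (u' i) (v' i) (u' (i + 1)) (v' (i + 1)))) ∧
      ∀ u' v' : ℕ → Fin 2 → L, u' 0 = q.2.1 → v' 0 = q.2.2 →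
        (∀ i < n, Step q.1 (u' i) (v' i) (u' (i + 1)) (v' (i + 1))) → (u' n, v' n) ∈ W := by
  induction n with
  | zero =>
    intro W hW
    have h1 : ∀ᶠ q : (Fin 3 → Fin 3 → L) × (Fin 2 → L) × (Fin 2 → L) in 𝓝 (g, u 0, v 0),
        q.2.1 ≠ 0 :=
      (continuous_fst.comp continuous_snd).continuousAt.eventually_ne (hu 0)
    have h2 : ∀ᶠ q : (Fin 3 → Fin 3 → L) × (Fin 2 → L) × (Fin 2 → L) in 𝓝 (g, u 0, v 0),
        q.2.2 ≠ 0 :=
      (continuous_snd.comp continuous_snd).continuousAt.eventually_ne (hv 0)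
    have h3 : ∀ᶠ q : (Fin 3 → Fin 3 → L) × (Fin 2 → L) × (Fin 2 → L) in 𝓝 (g, u 0, v 0),
        q.2 ∈ W := continuous_snd.continuousAt hW
    filter_upwards [h1, h2, h3] with q k1 k2 k3 _
    refine ⟨⟨fun _ => q.2.1, fun _ => q.2.2, rfl, rfl, fun _ => k1, fun _ => k2, ?_⟩, ?_⟩
    · intro i hi
      exact absurd hi (Nat.not_lt_zero i)
    · intro u' v' e1 e2 _
      rw [e1, e2]
      exact k3
  | succ n ih =>
    intro W hW
    have hn := hst n (Nat.lt_succ_self n)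
    have h1 := one (hu n) (hv n) (hu (n + 1)) (hv (n + 1)) hn hW
    obtain ⟨Wg, hWg, Wuv, hWuv, hsub⟩ := mem_nhds_prod_iff.1 h1
    have h2 := ih (fun i hi => hst i (Nat.lt_succ_of_lt hi)) Wuv hWuv
    have h3 : ∀ᶠ q : (Fin 3 → Fin 3 → L) × (Fin 2 → L) × (Fin 2 → L) in 𝓝 (g, u 0, v 0),
        q.1 ∈ Wg := continuous_fst.continuousAt hWg
    filter_upwards [h2, h3] with q k2 k3 hG
    obtain ⟨⟨u', v', e1, e2, hu', hv', hst'⟩, huni⟩ := k2 hG
    have hGn : ∀ u' v' : ℕ → Fin 2 → L, u' 0 = q.2.1 → v' 0 = q.2.2 →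
        (∀ i < n, Step q.1 (u' i) (v' i) (u' (i + 1)) (v' (i + 1))) →
        G q.1 (u' n) (v' n) = 0 := by
      intro u' v' e1 e2 hs
      rcases n with _ | m
      · rw [e1, e2]
        exact hG
      · exact Step.G0 (hs m (Nat.lt_succ_self m))
    constructor
    · have hm := huni u' v' e1 e2 hst'
      obtain ⟨⟨x, y, hx, hy, hxy⟩, -⟩ :=
        hsub (show (q.1, (u' n, v' n)) ∈ Wg ×ˢ Wuv from ⟨k3, hm⟩) (hGn u' v' e1 e2 hst')
      refine ⟨fun i => if i ≤ n then u' i else x, fun i => if i ≤ n then v' i else y, ?_, ?_, ?_,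
        ?_, ?_⟩
      · simpa using e1
      · simpa using e2
      · intro i
        dsimp only
        split_ifs
        · exact hu' i
        · exact hx
      · intro i
        dsimp only
        split_ifs
        · exact hv' i
        · exact hy
      · intro i hi
        have hin : i ≤ n := Nat.lt_succ_iff.1 hi
        dsimp only
        rw [if_pos hin, if_pos hin]
        rcases hin.lt_or_eq with h | h
        · rw [if_pos (Nat.succ_le_of_lt h), if_pos (Nat.succ_le_of_lt h)]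
          exact hst' i h
        · subst h
          rw [if_neg (by omega), if_neg (by omega)]
          exact hxy
    · intro a b ea eb hs
      have hs' : ∀ i < n, Step q.1 (a i) (b i) (a (i + 1)) (b (i + 1)) :=
        fun i hi => hs i (Nat.lt_succ_of_lt hi)
      have hm := huni a b ea eb hs'
      exact (hsub (show (q.1, (a n, b n)) ∈ Wg ×ˢ Wuv from ⟨k3, hm⟩) (hGn a b ea eb hs')).2 _ _
        (hs n (Nat.lt_succ_self n))

theorem main : StmtChain := by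
  intro L _ g u v n hu hv hst W hW
  refine ⟨_, main_aux g u v hu hv n hst W hW, ?_⟩
  intro g' a b hab hG
  exact hab hG

end Pool.Agent.W493.SA.Chain
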